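import Mathlib

namespace Pool.Agent.Results.MP_a456c8_co.Counter
open Matrix

/-- the Laplacian D - W of a weight matrix W. -/
def Lap {V : Type} [Fintype V] [DecidableEq V] (W : Matrix V V ℝ) : Matrix V V ℝ :=
  diagonal (fun i => ∑ j, W i j) - W

/-- f spans the eigenspace of the least nonzero eigenvalue of L, which is positive and simple. -/
def IsFiedler {V : Type} [Fintype V] (L : Matrix V V ℝ) (f : V → ℝ) : Prop :=
  f ≠ 0 ∧ ∃ l : ℝ, 0 < l ∧ L *ᵥ f = l • f ∧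
    (∀ (m : ℝ) (g : V → ℝ), g ≠ 0 → L *ᵥ g = m • g → m = 0 ∨ l ≤ m) ∧
    ∀ g, L *ᵥ g = l • g → ∃ c : ℝ, g = c • f

def Extremum {V : Type} (f : V → ℝ) (u : V) : Prop := (∀ i, f i ≤ f u) ∨ ∀ i, f u ≤ f i

/-- weights of G with a new vertex (none) joined to v by an edge of weight x. -/
def attach {V : Type} [DecidableEq V] (G : SimpleGraph V) [DecidableRel G.Adj] (v : V) (x : ℝ) :
    Matrix (Option V) (Option V) ℝ
  | some i, some j => G.adjMatrix ℝ i j
  | some i, none => if i = v then x else 0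
  | none, some j => if j = v then x else 0
  | none, none => 0

section
variable {V : Type} [Fintype V] [DecidableEq V] {W : Matrix V V ℝ}

lemma lap_mul (g : V → ℝ) (i : V) : (Lap W *ᵥ g) i = ∑ j, W i j * (g i - g j) := by
  rw [Lap, sub_mulVec, Pi.sub_apply, mulVec_diagonal]
  simp [mulVec, dotProduct, mul_sub, Finset.sum_mul]

lemma sym (hW : Wᵀ = W) (f g : V → ℝ) : f ⬝ᵥ Lap W *ᵥ g = g ⬝ᵥ Lap W *ᵥ f := by
  rw [dotProduct_mulVec, dotProduct_comm, ← mulVec_transpose, Lap, transpose_sub, hW,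
    diagonal_transpose]

lemma fied (hW : Wᵀ = W) {f : V → ℝ} {l : ℝ} (h0 : f ≠ 0) (hl : 0 < l) (hf : Lap W *ᵥ f = l • f)
    (h : ∀ g, g ⬝ᵥ 1 = 0 → g ⬝ᵥ f = 0 → g ⬝ᵥ Lap W *ᵥ g ≤ l * g ⬝ᵥ g → g ⬝ᵥ g ≤ 0) :
    IsFiedler (Lap W) f := by
  have one : Lap W *ᵥ 1 = (0 : ℝ) • 1 := funext fun i => by simp [lap_mul]
  have orth : ∀ {a b : ℝ} {u v : V → ℝ}, Lap W *ᵥ u = a • u → Lap W *ᵥ v = b • v → a ≠ b →
      u ⬝ᵥ v = 0 := by
    intro a b u v h1 h2 n
    have := sym hW u v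
    rw [h1, h2, dotProduct_smul, dotProduct_smul, dotProduct_comm v] at this
    exact (smul_eq_zero.mp (show (a - b) • (u ⬝ᵥ v) = 0 by rw [sub_smul, this, sub_self])).resolve_left
      (sub_ne_zero.mpr n)
  have nn : ∀ g : V → ℝ, 0 ≤ g ⬝ᵥ g := fun g => Finset.sum_nonneg fun i _ => mul_self_nonneg _
  have z : ∀ g : V → ℝ, g ⬝ᵥ g ≤ 0 → g = 0 := fun g e =>
    dotProduct_self_eq_zero.mp (le_antisymm e (nn g))
  refine ⟨h0, l, hl, hf, fun m g g0 hg => ?_, fun g hg => ⟨g ⬝ᵥ f / f ⬝ᵥ f, ?_⟩⟩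
  · by_contra n
    push Not at n
    refine g0 (z g (h g (orth hg one n.1) (orth hg hf n.2.ne) ?_))
    rw [hg, dotProduct_smul]
    exact mul_le_mul_of_nonneg_right n.2.le (nn g)
  · have k : Lap W *ᵥ (g - (g ⬝ᵥ f / f ⬝ᵥ f) • f) = l • (g - (g ⬝ᵥ f / f ⬝ᵥ f) • f) := by
      rw [mulVec_sub, mulVec_smul, hg, hf, smul_sub, smul_comm]
    refine sub_eq_zero.mp (z _ (h _ (orth k one hl.ne') ?_ (by rw [k, dotProduct_smul]; rfl)))
    rw [sub_dotProduct, smul_dotProduct, smul_eq_mul,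
      div_mul_cancel₀ _ (fun e => h0 (dotProduct_self_eq_zero.mp e)), sub_self]
end

lemma q0 (a b c d e f g h : ℝ) (h1 : a + b + c + d + e + f + g + h = 0)
    (h2 : a + b + c + d - 2 * g - 2 * h = 0)
    (h3 : (a - b) ^ 2 + (b - c) ^ 2 + (c - d) ^ 2 + (a - e) ^ 2 + (b - e) ^ 2 + (c - f) ^ 2 + (d - f) ^ 2 + (e - f) ^ 2 + (f - g) ^ 2 + (e - h) ^ 2 + (g - h) ^ 2 ≤ a ^ 2 + b ^ 2 + c ^ 2 + d ^ 2 + e ^ 2 + f ^ 2 + g ^ 2 + h ^ 2) :
    a ^ 2 + b ^ 2 + c ^ 2 + d ^ 2 + e ^ 2 + f ^ 2 + g ^ 2 + h ^ 2 ≤ 0 := by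
  linarith [congrArg (· ^ 2) h1, congrArg (· * ((-29) * a + (-29) * b + (-29) * c + (-29) * d + (0) * e + (0) * f + (58) * g + (58) * h)) h2,
    
    sq_nonneg ((1426) * a + (51) * b + (752) * c + (752) * d + (0) * e + (701) * f + (600) * g + (600) * h), 
    sq_nonneg ((1741) * b + (20) * c + (594) * d + (0) * e + (554) * f + (474) * g + (474) * h), 
    sq_nonneg ((1570) * c + (-322) * d + (637) * e + (-343) * f + (251) * g + (251) * h), 
    sq_nonneg ((1005) * d + (1199) * e + (-962) * f + (202) * g + (202) * h), 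
    sq_nonneg ((1455) * e + (943) * f + (411) * g + (-277) * h), 
    sq_nonneg ((1108) * f + (-712) * g + (774) * h), sq_nonneg ((941) * g + (284) * h), 
    sq_nonneg ((897) * h), sq_nonneg (b - a), sq_nonneg (c + a), sq_nonneg (c - b), 
    sq_nonneg (d + a), sq_nonneg (d - b), sq_nonneg (d + c), sq_nonneg (e - c), 
    sq_nonneg (e + d), sq_nonneg (f + a), sq_nonneg (f - b), sq_nonneg (f + c), 
    sq_nonneg (f + d), sq_nonneg (f - e), sq_nonneg (g - a), sq_nonneg (g - b), 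
    sq_nonneg (g + c), sq_nonneg (g + d), sq_nonneg (g - e), sq_nonneg (g - f), 
    sq_nonneg (h - a), sq_nonneg (h - b), sq_nonneg (h + c), sq_nonneg (h + d), 
    sq_nonneg (h + e), sq_nonneg (h + f), sq_nonneg (h - g), sq_nonneg a, sq_nonneg b, 
    sq_nonneg c, sq_nonneg d, sq_nonneg e, sq_nonneg f, sq_nonneg g, sq_nonneg h]

lemma q1 (a b c d e f g h i : ℝ) (h1 : a + b + c + d + e + f + g + h + i = 0)
    (h2 : (19297517063) * a + (19027210343) * b + (1805983943) * c + (-6277448857) * d + (2787374163) * e + (-8902230477) * f + (-26183761177) * g + (-20696803897) * h + (19142158896) * i = 0)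
    (h3 : (a - b) ^ 2 + (b - c) ^ 2 + (c - d) ^ 2 + (a - e) ^ 2 + (b - e) ^ 2 + (c - f) ^ 2 + (d - f) ^ 2 + (e - f) ^ 2 + (f - g) ^ 2 + (e - h) ^ 2 + (g - h) ^ 2 + 382843177920 / 2643816719 * (b - i) ^ 2 ≤ 20 / 23 * (a ^ 2 + b ^ 2 + c ^ 2 + d ^ 2 + e ^ 2 + f ^ 2 + g ^ 2 + h ^ 2 + i ^ 2)) :
    a ^ 2 + b ^ 2 + c ^ 2 + d ^ 2 + e ^ 2 + f ^ 2 + g ^ 2 + h ^ 2 + i ^ 2 ≤ 0 := by
  linarith [congrArg (· ^ 2) h1, congrArg (· * ((40) * a + (39) * b + (4) * c + (-13) * d + (6) * e + (-18) * f + (-54) * g + (-43) * h + (40) * i)) h2,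
    
    sq_nonneg ((1487) * a + (105) * b + (683) * c + (638) * d + (16) * e + (624) * f + (528) * g + (558) * h + (780) * i), 
    sq_nonneg ((12166) * b + (-5) * c + (73) * d + (2) * e + (71) * f + (60) * g + (64) * h + (-11815) * i), 
    sq_nonneg ((1608) * c + (-274) * d + (617) * e + (-269) * f + (385) * g + (375) * h + (266) * i), 
    sq_nonneg ((1257) * d + (916) * e + (-360) * f + (664) * g + (635) * h + (1098) * i), 
    sq_nonneg ((1684) * e + (282) * f + (68) * g + (-503) * h + (-82) * i), 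
    sq_nonneg ((1846) * f + (48) * g + (649) * h + (959) * i), 
    sq_nonneg ((1210) * g + (-520) * h + (176) * i), sq_nonneg ((657) * h + (-339) * i), 
    sq_nonneg ((1571) * i), sq_nonneg (b + a), sq_nonneg (c - a), sq_nonneg (c + b), 
    sq_nonneg (d - a), sq_nonneg (d - b), sq_nonneg (d + c), sq_nonneg (e - a), 
    sq_nonneg (e - b), sq_nonneg (e - c), sq_nonneg (e - d), sq_nonneg (f - a), 
    sq_nonneg (f - b), sq_nonneg (f - c), sq_nonneg (f - d), sq_nonneg (f + e), 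
    sq_nonneg (g - a), sq_nonneg (g + b), sq_nonneg (g - c), sq_nonneg (g - d), 
    sq_nonneg (g - e), sq_nonneg (g - f), sq_nonneg (h - a), sq_nonneg (h - b), 
    sq_nonneg (h - c), sq_nonneg (h - d), sq_nonneg (h - e), sq_nonneg (h - f), 
    sq_nonneg (h - g), sq_nonneg (i - a), sq_nonneg (i + b), sq_nonneg (i - c), 
    sq_nonneg (i + d), sq_nonneg (i + e), sq_nonneg (i - f), sq_nonneg (i - g), 
    sq_nonneg (i + h), sq_nonneg a, sq_nonneg b, sq_nonneg c, sq_nonneg d, sq_nonneg e, 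
    sq_nonneg f, sq_nonneg g, sq_nonneg h, sq_nonneg i]

def A : Matrix (Fin 8) (Fin 8) ℕ := !![0, 1, 0, 0, 1, 0, 0, 0; 1, 0, 1, 0, 1, 0, 0, 0; 0, 1, 0, 1, 0, 1, 0, 0; 0, 0, 1, 0, 0, 1, 0, 0; 1, 1, 0, 0, 0, 1, 0, 1; 0, 0, 1, 1, 1, 0, 1, 0; 0, 0, 0, 0, 0, 1, 0, 1; 0, 0, 0, 0, 1, 0, 1, 0]

def G : SimpleGraph (Fin 8) where
  Adj a b := A a b = 1
  symm := ⟨by decide⟩
  loopless := ⟨by decide⟩

instance : DecidableRel G.Adj := fun a b => inferInstanceAs (Decidable (A a b = 1))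

lemma hA (i j : Fin 8) : G.adjMatrix ℝ i j = A i j := by
  have : ∀ i j, G.adjMatrix ℕ i j = A i j := by decide
  simp [← this]

def f0 : Fin 8 → ℝ := ![1, 1, 1, 1, 0, 0, -2, -2]

def f1 : Option (Fin 8) → ℝ
  | none => 19142158896
  | some i => ![19297517063, 19027210343, 1805983943, -6277448857, 2787374163, -8902230477, -26183761177, -20696803897] i

theorem result : ∃ (n : ℕ) (G : SimpleGraph (Fin n)) (_ : DecidableRel G.Adj) (v : Fin n) (x : ℝ)
    (f : Fin n → ℝ) (g : Option (Fin n) → ℝ), G.Connected ∧ 0 < x ∧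
    IsFiedler (Lap (G.adjMatrix ℝ)) f ∧ Extremum f v ∧
    IsFiedler (Lap (attach G v x)) g ∧ ¬ Extremum g none := by
  refine ⟨8, G, inferInstance, 1, 382843177920 / 2643816719, f0, f1, by decide +kernel, by norm_num,
    fied (l := 1) G.transpose_adjMatrix (fun e => by simpa [f0] using congrFun e 0) one_pos ?_
      fun g h1 h2 h3 => ?_, .inl fun i => ?_,
    fied (l := 20 / 23) ?_ (fun e => by simpa [f1] using congrFun e none) (by norm_num) ?_
      fun g h1 h2 h3 => ?_, ?_⟩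
  · funext i
    fin_cases i <;> simp [lap_mul, hA, -SimpleGraph.adjMatrix_apply, Fin.sum_univ_eight, A, f0] <;> norm_num
  · simp [dotProduct, lap_mul, hA, -SimpleGraph.adjMatrix_apply, Fin.sum_univ_eight, A, f0] at h1 h2 h3 ⊢
    linarith [q0 (g 0) (g 1) (g 2) (g 3) (g 4) (g 5) (g 6) (g 7) h1 (by linarith) (by linarith)]
  · fin_cases i <;> simp [f0] <;> norm_num
  · ext (_ | i) (_ | j) <;> simp [attach, G.adj_comm]
  · funext i
    rcases i with _ | i
    · simp [lap_mul, attach, f1]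
      norm_num
    · fin_cases i <;> simp [lap_mul, attach, hA, -SimpleGraph.adjMatrix_apply, Fin.sum_univ_eight, A, f1] <;> norm_num
  · simp [dotProduct, lap_mul, attach, hA, -SimpleGraph.adjMatrix_apply, Fin.sum_univ_eight, A, f1] at h1 h2 h3 ⊢
    linarith [q1 (g (some 0)) (g (some 1)) (g (some 2)) (g (some 3)) (g (some 4)) (g (some 5))
      (g (some 6)) (g (some 7)) (g none) (by linarith) (by linarith) (by linarith)]
  · rintro (h | h)
    · have := h (some 0)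
      norm_num [f1] at this
    · have := h (some 2)
      simp [f1] at this
      norm_num at this

end Pool.Agent.Results.MP_a456c8_co.Counter
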